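import Pool.Agent.Helper34.R9.Sheet

/-! # Row LEAD of R9 (MP_798d7d_nt): `fJh` is homogeneous of weight 30 -/

set_option autoImplicit false

namespace Pool.Helper34.R9

open Polynomial
open Pool.Helper17.R8 (ek q4 q3 q2 q1 q0 fI fJ yv y9 xX pI pJ ST_DDIV ST_CURVE)

namespace S63

/-- `p` has degree at most `n` and the coefficient `a` of `X ^ n` -/
def W (n : ℕ) (p : ℤ[X]) (a : ℤ) : Prop := p.natDegree ≤ n ∧ p.coeff n = a

theorem W.mul {m n : ℕ} {p q : ℤ[X]} {a b : ℤ} (hp : W m p a) (hq : W n q b) :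
    W (m + n) (p * q) (a * b) := by
  refine ⟨natDegree_mul_le.trans (add_le_add hp.1 hq.1), ?_⟩
  rw [coeff_mul_add_eq_of_natDegree_le hp.1 hq.1, hp.2, hq.2]

theorem W.add {n : ℕ} {p q : ℤ[X]} {a b : ℤ} (hp : W n p a) (hq : W n q b) :
    W n (p + q) (a + b) := by
  refine ⟨natDegree_add_le_of_degree_le hp.1 hq.1, ?_⟩
  rw [coeff_add, hp.2, hq.2]

theorem W.sub {n : ℕ} {p q : ℤ[X]} {a b : ℤ} (hp : W n p a) (hq : W n q b) :
    W n (p - q) (a - b) := by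
  refine ⟨(natDegree_sub_le_of_le hp.1 hq.1).trans (max_self n).le, ?_⟩
  rw [coeff_sub, hp.2, hq.2]

theorem W.sq {n : ℕ} {p : ℤ[X]} {a : ℤ} (hp : W n p a) : W (n + n) (p ^ 2) (a ^ 2) := by
  rw [pow_two, pow_two]
  exact hp.mul hp

theorem W.cube {n : ℕ} {p : ℤ[X]} {a : ℤ} (hp : W n p a) :
    W (n + n + n) (p ^ 3) (a ^ 3) := by
  rw [pow_succ, pow_succ a]
  exact hp.sq.mul hp

theorem W.C (a : ℤ) : W 0 (Polynomial.C a) a :=
  ⟨(natDegree_C a).le, coeff_C_zero⟩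

theorem W.num (k : ℕ) [k.AtLeastTwo] : W 0 (OfNat.ofNat k : ℤ[X]) (OfNat.ofNat k : ℤ) := by
  have := W.C (OfNat.ofNat k : ℤ)
  rwa [show (Polynomial.C (OfNat.ofNat k : ℤ)) = (OfNat.ofNat k : ℤ[X]) from
    Polynomial.C_ofNat k] at this

theorem W.cast {m n : ℕ} {p : ℤ[X]} {a : ℤ} (h : W m p a) (e : m = n) : W n p a := e ▸ h

end S63

open S63 in
theorem st_LEAD : ST_LEAD := by
  intro F G v w κ hF hG hGw
  have e : ∀ k, k ≤ 8 → W k (F k) (v k) := fun k hk => hF k hk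
  have E : W 6 G w := ⟨hG, hGw⟩
  have K : W 0 (C κ) κ := W.C κ
  have n2 : W 0 (2 : ℤ[X]) 2 := W.num 2
  have n4 : W 0 (4 : ℤ[X]) 4 := W.num 4
  have n72 : W 0 (72 : ℤ[X]) 72 := W.num 72
  have n9 : W 0 (9 : ℤ[X]) 9 := W.num 9
  have n27 : W 0 (27 : ℤ[X]) 27 := W.num 27
  have e2 := e 2 (by norm_num)
  have e3 := e 3 (by norm_num)
  have e4 := e 4 (by norm_num)
  have e5 := e 5 (by norm_num)
  have e6 := e 6 (by norm_num)
  have e7 := e 7 (by norm_num)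
  have e8 := e 8 (by norm_num)
  -- the factors
  have a6 : W 6 (C κ * F 3 ^ 2 - 4 * G) (κ * v 3 ^ 2 - 4 * w) :=
    ((K.mul e3.sq).cast (by norm_num)).sub ((n4.mul E).cast (by norm_num))
  have a10 : W 10 (C κ * (F 5 ^ 2 + 2 * F 3 * F 7 - 4 * (F 8 * F 2)) - 4 * (G * F 4))
      (κ * (v 5 ^ 2 + 2 * v 3 * v 7 - 4 * (v 8 * v 2)) - 4 * (w * v 4)) :=
    ((K.mul ((((e5.sq).cast (by norm_num : 5 + 5 = 10)).add
      (((n2.mul e3).mul e7).cast (by norm_num))).sub ((n4.mul (e8.mul e2)).cast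
      (by norm_num)))).cast (by norm_num)).sub ((n4.mul (E.mul e4)).cast (by norm_num))
  have a14 : W 14 (C κ * (F 7 ^ 2 - 4 * F 8 * F 6) + 4 * F 8 * G)
      (κ * (v 7 ^ 2 - 4 * v 8 * v 6) + 4 * v 8 * w) :=
    ((K.mul (((e7.sq).cast (by norm_num : 7 + 7 = 14)).sub
      (((n4.mul e8).mul e6).cast (by norm_num)))).cast (by norm_num)).add
      (((n4.mul e8).mul E).cast (by norm_num))
  have a8 : W 8 (C κ * (2 * F 3 * F 5 - 4 * F 8) - 4 * (G * F 2))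
      (κ * (2 * v 3 * v 5 - 4 * v 8) - 4 * (w * v 2)) :=
    ((K.mul ((((n2.mul e3).mul e5).cast (by norm_num : 0 + 3 + 5 = 8)).sub
      ((n4.mul e8).cast (by norm_num)))).cast (by norm_num)).sub
      ((n4.mul (E.mul e2)).cast (by norm_num))
  have a12 : W 12 (C κ ^ 2 * (2 * F 5 * F 7 - 4 * (F 8 * F 4)) - 4 * (G * (C κ * F 6 - G)))
      (κ ^ 2 * (2 * v 5 * v 7 - 4 * (v 8 * v 4)) - 4 * (w * (κ * v 6 - w))) :=
    ((K.sq.mul ((((n2.mul e5).mul e7).cast (by norm_num : 0 + 5 + 7 = 12)).sub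
      ((n4.mul (e8.mul e4)).cast (by norm_num)))).cast (by norm_num)).sub
      ((n4.mul (E.mul (((K.mul e6).cast (by norm_num : 0 + 6 = 6)).sub E))).cast (by norm_num))
  have t1 := ((((n72.mul K.sq).mul a6).mul a10).mul a14).cast (by norm_num : _ = 30)
  have t2 := ((((n9.mul K).mul a8).mul a10).mul a12).cast (by norm_num : _ = 30)
  have t3 := ((n27.mul a6).mul a12.sq).cast (by norm_num : _ = 30)
  have t4 := (((n27.mul K.sq).mul a14).mul a8.sq).cast (by norm_num : _ = 30)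
  have t5 := ((n2.mul K.sq).mul a10.cube).cast (by norm_num : _ = 30)
  exact (((t1.add t2).sub t3).sub t4).sub t5

end Pool.Helper34.R9
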