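import Pool.Agent.Helper34.R9.SheetB

/-! # Row VTOP of R9b (MP_798d7d_nt): the value of `fJh` at the leading coefficients -/

set_option autoImplicit false

namespace Pool.Helper34.R9

open Pool.Helper17.R8 (ek)

namespace S63

theorem ek2 : ek (![1, 1, 1, 1, 1, 1, 0, -6] : Fin 8 → ℤ) 2 = -21 := by decide +kernel
theorem ek3 : ek (![1, 1, 1, 1, 1, 1, 0, -6] : Fin 8 → ℤ) 3 = -70 := by decide +kernel
theorem ek4 : ek (![1, 1, 1, 1, 1, 1, 0, -6] : Fin 8 → ℤ) 4 = -105 := by decide +kernel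
theorem ek5 : ek (![1, 1, 1, 1, 1, 1, 0, -6] : Fin 8 → ℤ) 5 = -84 := by decide +kernel
theorem ek6 : ek (![1, 1, 1, 1, 1, 1, 0, -6] : Fin 8 → ℤ) 6 = -35 := by decide +kernel
theorem ek7 : ek (![1, 1, 1, 1, 1, 1, 0, -6] : Fin 8 → ℤ) 7 = -6 := by decide +kernel
theorem ek8 : ek (![1, 1, 1, 1, 1, 1, 0, -6] : Fin 8 → ℤ) 8 = 0 := by decide +kernel

end S63

open S63 in
theorem st_VTOP : ST_VTOP := by
  unfold ST_VTOP fJh EB g1
  rw [ek2, ek3, ek4, ek5, ek6, ek7, ek8]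
  norm_num

end Pool.Helper34.R9
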